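import Mathlib

/-!
Entropy of discrete random vectors, p-characteristic sets of matroids, the class
`M' = (regular matroids) ∪ (matroids with p-characteristic set {v ≥ 3, v ≠ 6})`
and its excluded minors.
-/

namespace Pool.Agent.H17.PChar

open scoped ENNReal

variable {α : Type*}

/-- Shannon entropy (natural logarithm) of a discrete probability distribution `q`:
the sum of `-q(b) log q(b)` over all `b`, as an extended nonnegative real number. -/
noncomputable def entropy {β : Type*} (q : PMF β) : ℝ≥0∞ :=
  ∑' b, ENNReal.ofReal (Real.negMulLog (q b).toReal)

/-- `log v · r_M` is the entropy function of a discrete random vector `(X_i)`: here `p` is the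
joint law of the vector (with values in `ℕ`, which is no restriction for discrete random
variables), `p.map (fun x (i : A) => x i)` is the law of the subvector `X_A`, and `M.eRk A` is the rank of
`A` in `M`. Only index sets `A` contained in the ground set of `M` matter. -/
def IsEntropic (M : Matroid α) (v : ℕ) : Prop :=
  ∃ p : PMF (α → ℕ), ∀ A : Set α, A ⊆ M.E →
    entropy (p.map fun x (i : A) => x i) = ENNReal.ofReal (Real.log v * ((M.eRk A).toNat : ℝ))

/-- The p-characteristic set of a matroid. -/
def pChar (M : Matroid α) : Set ℕ := {v | 2 ≤ v ∧ IsEntropic M v}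

/-- `M` is representable over the field `F`: there is a map `φ` to an `F`-vector space such that
a set of elements of `M` is independent in `M` if and only if the (indexed) family of its images
is linearly independent. -/
def Representable (F : Type) [Field F] (M : Matroid α) : Prop :=
  ∃ (W : Type) (_ : AddCommGroup W) (_ : Module F W) (φ : α → W),
    ∀ I ⊆ M.E, (M.Indep I ↔ LinearIndepOn F φ I)

/-- Regular matroids: representable over every field. -/
def IsRegular (M : Matroid α) : Prop := ∀ (F : Type) [Field F], Representable F M

/-- Membership in the class `M' = M_reg ∪ M_{U_{2,4}}` for (finite) matroids: `M` is regular, or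
its p-characteristic set is `{v ≥ 3 : v ≠ 6}`. -/
def InClass (M : Matroid α) : Prop := IsRegular M ∨ pChar M = {v | 3 ≤ v ∧ v ≠ 6}

/-- `M` is an excluded minor of the class `M'`: it is a finite matroid outside `M'` all of whose
proper minors are in `M'`. -/
def IsExcludedMinor (M : Matroid α) : Prop :=
  M.Finite ∧ ¬ InClass M ∧ ∀ N : Matroid α, N <m M → InClass N

/-- `M` is isomorphic to the uniform matroid `U_{k,n}`. -/
def IsUniform (k n : ℕ) (M : Matroid α) : Prop :=
  M.E.encard = n ∧ ∀ I ⊆ M.E, (M.Indep I ↔ I.encard ≤ k)

/-- `M` is isomorphic to the Fano matroid `F_7`, the matroid of the seven nonzero vectors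
of the three-dimensional vector space over the field with two elements. -/
def IsFano (M : Matroid α) : Prop :=
  ∃ φ : α → (Fin 3 → ZMod 2), Set.BijOn φ M.E {x | x ≠ 0} ∧
    ∀ I ⊆ M.E, (M.Indep I ↔ LinearIndepOn (ZMod 2) φ I)

end Pool.Agent.H17.PChar
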