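import Mathlib
import Pool.Agent.H17.PChar.Defs

/-!
Equality cases of the basic entropy inequalities.
-/

namespace Pool.Agent.H17.PChar

open scoped ENNReal
open Real

section basic

variable {β γ : Type*}

theorem toReal_le_one (q : PMF β) (b : β) : (q b).toReal ≤ 1 := by
  have := q.coe_le_one b
  exact ENNReal.toReal_le_of_le_ofReal zero_le_one (by simpa using this)

/-- entropy is unchanged by injective relabelling -/
theorem entropy_map_injective (q : PMF β) (e : β → γ) (he : Function.Injective e) :
    entropy (q.map e) = entropy q := by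
  classical
  unfold entropy
  have h1 : ∀ b, (q.map e) (e b) = q b := by
    intro b
    rw [PMF.map_apply]
    rw [tsum_eq_single b]
    · simp
    · intro b' hb'
      rw [if_neg]
      intro h
      exact hb' (he h.symm)
  have h2 : Function.support (fun c => ENNReal.ofReal (negMulLog ((q.map e) c).toReal)) ⊆
      Set.range e := by
    intro c hc
    by_contra hcr
    apply hc
    have : (q.map e) c = 0 := by
      rw [PMF.map_apply]
      simp only [ENNReal.tsum_eq_zero]
      intro b
      rw [if_neg]
      rintro rfl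
      exact hcr ⟨b, rfl⟩
    simp [this]
  rw [← he.tsum_eq h2]
  simp [h1]

theorem map_fst_apply (q : PMF (β × γ)) (b : β) : (q.map Prod.fst) b = ∑' c, q (b, c) := by
  classical
  rw [PMF.map_apply]
  rw [ENNReal.tsum_prod']
  rw [tsum_eq_single b]
  · simp
  · intro b' hb'
    simp [Ne.symm hb']

theorem map_snd_apply (q : PMF (β × γ)) (c : γ) : (q.map Prod.snd) c = ∑' b, q (b, c) := by
  classical
  rw [PMF.map_apply]
  rw [ENNReal.tsum_prod', ENNReal.tsum_comm]
  rw [tsum_eq_single c]
  · simp
  · intro b' hb'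
    simp [Ne.symm hb']

theorem le_fst (q : PMF (β × γ)) (b : β) (c : γ) : q (b, c) ≤ (q.map Prod.fst) b := by
  rw [map_fst_apply]
  exact ENNReal.le_tsum c

theorem le_snd (q : PMF (β × γ)) (b : β) (c : γ) : q (b, c) ≤ (q.map Prod.snd) c := by
  rw [map_snd_apply]
  exact ENNReal.le_tsum b

/-- cross term sums to the marginal entropy (first coordinate) -/
theorem cross_fst (q : PMF (β × γ)) :
    ∑' x : β × γ, ENNReal.ofReal ((q x).toReal * (-log ((q.map Prod.fst) x.1).toReal)) =
      entropy (q.map Prod.fst) := by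
  rw [ENNReal.tsum_prod']
  unfold entropy
  refine tsum_congr fun b => ?_
  have hnn : 0 ≤ -log ((q.map Prod.fst) b).toReal := by
    rw [Left.nonneg_neg_iff]
    exact log_nonpos ENNReal.toReal_nonneg (toReal_le_one _ _)
  have h1 : ∀ c, ENNReal.ofReal ((q (b, c)).toReal * (-log ((q.map Prod.fst) b).toReal)) =
      q (b, c) * ENNReal.ofReal (-log ((q.map Prod.fst) b).toReal) := by
    intro c
    rw [ENNReal.ofReal_mul ENNReal.toReal_nonneg, ENNReal.ofReal_toReal (q.apply_ne_top _)]
  simp only [h1]
  rw [ENNReal.tsum_mul_right, ← map_fst_apply]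
  rw [negMulLog, neg_mul, ← mul_neg, ENNReal.ofReal_mul ENNReal.toReal_nonneg,
    ENNReal.ofReal_toReal (PMF.apply_ne_top _ _)]

theorem cross_snd (q : PMF (β × γ)) :
    ∑' x : β × γ, ENNReal.ofReal ((q x).toReal * (-log ((q.map Prod.snd) x.2).toReal)) =
      entropy (q.map Prod.snd) := by
  rw [ENNReal.tsum_prod', ENNReal.tsum_comm]
  unfold entropy
  refine tsum_congr fun c => ?_
  have hnn : 0 ≤ -log ((q.map Prod.snd) c).toReal := by
    rw [Left.nonneg_neg_iff]
    exact log_nonpos ENNReal.toReal_nonneg (toReal_le_one _ _)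
  have h1 : ∀ b, ENNReal.ofReal ((q (b, c)).toReal * (-log ((q.map Prod.snd) c).toReal)) =
      q (b, c) * ENNReal.ofReal (-log ((q.map Prod.snd) c).toReal) := by
    intro b
    rw [ENNReal.ofReal_mul ENNReal.toReal_nonneg, ENNReal.ofReal_toReal (q.apply_ne_top _)]
  simp only [h1]
  rw [ENNReal.tsum_mul_right, ← map_snd_apply]
  rw [negMulLog, neg_mul, ← mul_neg, ENNReal.ofReal_mul ENNReal.toReal_nonneg,
    ENNReal.ofReal_toReal (PMF.apply_ne_top _ _)]

/-- If the joint entropy equals the (finite) entropy of the first coordinate then the second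
coordinate is a function of the first. -/
theorem determined_of_entropy_eq (q : PMF (β × γ)) (h : entropy q = entropy (q.map Prod.fst))
    (hfin : entropy q ≠ ∞) (b : β) (c c' : γ) (hc : q (b, c) ≠ 0) (hc' : q (b, c') ≠ 0) :
    c = c' := by
  classical
  -- decomposition
  have hdec : ∀ x : β × γ, ENNReal.ofReal (negMulLog (q x).toReal) =
      ENNReal.ofReal ((q x).toReal * (-log ((q.map Prod.fst) x.1).toReal)) +
      ENNReal.ofReal ((q x).toReal *
        (log ((q.map Prod.fst) x.1).toReal - log (q x).toReal)) := by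
    rintro ⟨b, c⟩
    by_cases h0 : q (b, c) = 0
    · simp [h0]
    · have hpos : 0 < (q (b, c)).toReal := ENNReal.toReal_pos h0 (q.apply_ne_top _)
      have hle : (q (b, c)).toReal ≤ ((q.map Prod.fst) b).toReal :=
        ENNReal.toReal_mono (PMF.apply_ne_top _ _) (le_fst q b c)
      rw [← ENNReal.ofReal_add]
      · congr 1
        rw [negMulLog]
        ring
      · refine mul_nonneg hpos.le ?_
        rw [Left.nonneg_neg_iff]
        exact log_nonpos ENNReal.toReal_nonneg (toReal_le_one _ _)
      · refine mul_nonneg hpos.le ?_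
        rw [sub_nonneg]
        exact log_le_log hpos hle
  have hsum : entropy q = entropy (q.map Prod.fst) +
      ∑' x : β × γ, ENNReal.ofReal ((q x).toReal *
        (log ((q.map Prod.fst) x.1).toReal - log (q x).toReal)) := by
    conv_lhs => unfold entropy
    simp only [hdec]
    rw [ENNReal.tsum_add, cross_fst]
  have hz : ∑' x : β × γ, ENNReal.ofReal ((q x).toReal *
        (log ((q.map Prod.fst) x.1).toReal - log (q x).toReal)) = 0 := by
    have h2 : entropy (q.map Prod.fst) ≠ ∞ := h ▸ hfin
    rw [h] at hsum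
    conv_lhs at hsum => rw [← add_zero (entropy (q.map Prod.fst))]
    exact ((ENNReal.add_right_inj h2).mp hsum).symm
  rw [ENNReal.tsum_eq_zero] at hz
  have key : ∀ c, q (b, c) ≠ 0 → q (b, c) = (q.map Prod.fst) b := by
    intro c h0
    have hpos : 0 < (q (b, c)).toReal := ENNReal.toReal_pos h0 (q.apply_ne_top _)
    have hle : (q (b, c)).toReal ≤ ((q.map Prod.fst) b).toReal :=
      ENNReal.toReal_mono (PMF.apply_ne_top _ _) (le_fst q b c)
    have h1 := hz (b, c)
    rw [ENNReal.ofReal_eq_zero] at h1
    simp only at h1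
    have h2 : log ((q.map Prod.fst) b).toReal - log (q (b, c)).toReal ≤ 0 := by
      by_contra hcon
      push Not at hcon
      have := mul_pos hpos hcon
      linarith
    have h3 : ((q.map Prod.fst) b).toReal ≤ (q (b, c)).toReal := by
      rw [← log_le_log_iff (lt_of_lt_of_le hpos hle) hpos]
      linarith
    have h4 := le_antisymm hle h3
    rwa [ENNReal.toReal_eq_toReal_iff' (q.apply_ne_top _) (PMF.apply_ne_top _ _)] at h4
  by_contra hne
  have h1 := key c hc
  have h2 := key c' hc'
  have h3 : q (b, c) + q (b, c') ≤ (q.map Prod.fst) b := by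
    rw [map_fst_apply, ← Finset.sum_pair (f := fun c => q (b, c)) hne]
    exact ENNReal.sum_le_tsum _
  rw [h1, h2] at h3
  have h4 : (q.map Prod.fst) b ≠ 0 := h1 ▸ hc
  have h5 : (q.map Prod.fst) b ≠ ∞ := PMF.apply_ne_top _ _
  have h6 : (q.map Prod.fst) b < (q.map Prod.fst) b + (q.map Prod.fst) b :=
    ENNReal.lt_add_right h5 h4
  exact absurd h3 (not_le.mpr h6)

theorem hasSum_toReal' {ι : Type*} (f : ι → ℝ≥0∞) (h : ∑' i, f i ≠ ∞) :
    HasSum (fun i => (f i).toReal) (∑' i, f i).toReal := by
  have h1 := ENNReal.hasSum_toReal h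
  rwa [← ENNReal.tsum_toReal_eq (fun i => ENNReal.ne_top_of_tsum_ne_top h i)] at h1

theorem hasSum_ofReal' {ι : Type*} (f : ι → ℝ) (hf : ∀ i, 0 ≤ f i)
    (hs : ∑' i, ENNReal.ofReal (f i) ≠ ∞) : HasSum f (∑' i, ENNReal.ofReal (f i)).toReal := by
  have h2 := hasSum_toReal' _ hs
  convert h2 using 1
  ext i
  exact (ENNReal.toReal_ofReal (hf i)).symm

/-- If the joint entropy is the sum of the two (finite) marginal entropies then the coordinates
are independent. -/
theorem indep_of_entropy_add (q : PMF (β × γ))
    (h : entropy q = entropy (q.map Prod.fst) + entropy (q.map Prod.snd))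
    (hfin : entropy q ≠ ∞) (b : β) (c : γ) :
    q (b, c) = (q.map Prod.fst) b * (q.map Prod.snd) c := by
  classical
  have h1fin : entropy (q.map Prod.fst) ≠ ∞ := fun h' => hfin (by rw [h, h']; simp)
  have h2fin : entropy (q.map Prod.snd) ≠ ∞ := fun h' => hfin (by rw [h, h']; simp)
  have hA : HasSum (fun x : β × γ => negMulLog (q x).toReal) (entropy q).toReal := by
    refine hasSum_ofReal' _ (fun x => ?_) hfin
    exact negMulLog_nonneg ENNReal.toReal_nonneg (toReal_le_one _ _)
  have hB : HasSum (fun x : β × γ => (q x).toReal * (-log ((q.map Prod.fst) x.1).toReal))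
      (entropy (q.map Prod.fst)).toReal := by
    rw [← cross_fst q]
    refine hasSum_ofReal' _ (fun x => ?_) (by rw [cross_fst q]; exact h1fin)
    refine mul_nonneg ENNReal.toReal_nonneg ?_
    rw [Left.nonneg_neg_iff]
    exact log_nonpos ENNReal.toReal_nonneg (toReal_le_one _ _)
  have hC : HasSum (fun x : β × γ => (q x).toReal * (-log ((q.map Prod.snd) x.2).toReal))
      (entropy (q.map Prod.snd)).toReal := by
    rw [← cross_snd q]
    refine hasSum_ofReal' _ (fun x => ?_) (by rw [cross_snd q]; exact h2fin)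
    refine mul_nonneg ENNReal.toReal_nonneg ?_
    rw [Left.nonneg_neg_iff]
    exact log_nonpos ENNReal.toReal_nonneg (toReal_le_one _ _)
  have hD : HasSum (fun x : β × γ => (q x).toReal) 1 := by
    have := hasSum_toReal' (fun x : β × γ => q x) (by rw [q.tsum_coe]; simp)
    rw [q.tsum_coe] at this
    simpa using this
  have hE : HasSum (fun x : β × γ => ((q.map Prod.fst) x.1).toReal * ((q.map Prod.snd) x.2).toReal)
      1 := by
    have h1 : ∑' x : β × γ, (q.map Prod.fst) x.1 * (q.map Prod.snd) x.2 = 1 := by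
      rw [ENNReal.tsum_prod']
      simp only [ENNReal.tsum_mul_left, PMF.tsum_coe, mul_one]
    have := hasSum_toReal' (fun x : β × γ => (q.map Prod.fst) x.1 * (q.map Prod.snd) x.2)
      (by rw [h1]; simp)
    rw [h1] at this
    simpa using this
  have hsumreal : (entropy q).toReal =
      (entropy (q.map Prod.fst)).toReal + (entropy (q.map Prod.snd)).toReal := by
    rw [h, ENNReal.toReal_add h1fin h2fin]
  have hT := (((hB.add hC).sub hA).sub hD).add hE
  have hT0 : (entropy (q.map Prod.fst)).toReal + (entropy (q.map Prod.snd)).toReal -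
      (entropy q).toReal - 1 + 1 = 0 := by rw [hsumreal]; ring
  rw [hT0] at hT
  have hnn : ∀ x : β × γ, 0 ≤ (q x).toReal * (-log ((q.map Prod.fst) x.1).toReal) +
      (q x).toReal * (-log ((q.map Prod.snd) x.2).toReal) - negMulLog (q x).toReal -
      (q x).toReal + ((q.map Prod.fst) x.1).toReal * ((q.map Prod.snd) x.2).toReal := by
    rintro ⟨b, c⟩
    by_cases h0 : q (b, c) = 0
    · simp only [h0, ENNReal.toReal_zero, zero_mul, negMulLog_zero, add_zero, sub_zero, zero_add]
      positivity
    · have hpos : 0 < (q (b, c)).toReal := ENNReal.toReal_pos h0 (q.apply_ne_top _)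
      have hle1 : (q (b, c)).toReal ≤ ((q.map Prod.fst) b).toReal :=
        ENNReal.toReal_mono (PMF.apply_ne_top _ _) (le_fst q b c)
      have hle2 : (q (b, c)).toReal ≤ ((q.map Prod.snd) c).toReal :=
        ENNReal.toReal_mono (PMF.apply_ne_top _ _) (le_snd q b c)
      have hp1 := lt_of_lt_of_le hpos hle1
      have hp2 := lt_of_lt_of_le hpos hle2
      have hlog := log_le_sub_one_of_pos (div_pos (mul_pos hp1 hp2) hpos)
      rw [log_div (mul_pos hp1 hp2).ne' hpos.ne', log_mul hp1.ne' hp2.ne'] at hlog
      have := mul_le_mul_of_nonneg_left hlog hpos.le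
      have he : ∀ A : ℝ, (q (b, c)).toReal * (A / (q (b, c)).toReal - 1) =
          A - (q (b, c)).toReal := by
        intro A
        field_simp
      rw [he] at this
      simp only [negMulLog]
      nlinarith [this]
  have hz := (hasSum_zero_iff_of_nonneg hnn).mp hT
  have hz' := congrFun hz (b, c)
  simp only [Pi.zero_apply] at hz'
  have goal : (q (b, c)).toReal = ((q.map Prod.fst) b).toReal * ((q.map Prod.snd) c).toReal := by
    by_cases h0 : q (b, c) = 0
    · simp only [h0, ENNReal.toReal_zero, zero_mul, negMulLog_zero, add_zero, sub_zero,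
        zero_add] at hz'
      rw [hz', h0]
      simp
    · have hpos : 0 < (q (b, c)).toReal := ENNReal.toReal_pos h0 (q.apply_ne_top _)
      have hle1 : (q (b, c)).toReal ≤ ((q.map Prod.fst) b).toReal :=
        ENNReal.toReal_mono (PMF.apply_ne_top _ _) (le_fst q b c)
      have hle2 : (q (b, c)).toReal ≤ ((q.map Prod.snd) c).toReal :=
        ENNReal.toReal_mono (PMF.apply_ne_top _ _) (le_snd q b c)
      have hp1 := lt_of_lt_of_le hpos hle1
      have hp2 := lt_of_lt_of_le hpos hle2
      by_contra hne
      have hne' : ((q.map Prod.fst) b).toReal * ((q.map Prod.snd) c).toReal / (q (b, c)).toReal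
          ≠ 1 := by
        intro h1
        rw [div_eq_one_iff_eq hpos.ne'] at h1
        exact hne h1.symm
      have hlog := log_lt_sub_one_of_pos (div_pos (mul_pos hp1 hp2) hpos) hne'
      rw [log_div (mul_pos hp1 hp2).ne' hpos.ne', log_mul hp1.ne' hp2.ne'] at hlog
      have := mul_lt_mul_of_pos_left hlog hpos
      have he : ∀ A : ℝ, (q (b, c)).toReal * (A / (q (b, c)).toReal - 1) =
          A - (q (b, c)).toReal := by
        intro A
        field_simp
      rw [he] at this
      simp only [negMulLog] at hz'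
      nlinarith [this]
  rw [← ENNReal.toReal_mul] at goal
  rwa [ENNReal.toReal_eq_toReal_iff' (q.apply_ne_top _)
    (ENNReal.mul_ne_top (PMF.apply_ne_top _ _) (PMF.apply_ne_top _ _))] at goal

end basic

end Pool.Agent.H17.PChar
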