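import Mathlib

/-!
The combinatorial core: a Latin square satisfying the closure condition coming from `M(K_4)` is
the table of a group, and a group of order `2 mod 4` has no orthogonal mate.
-/

namespace Pool.Agent.H17.PChar

open Function

theorem sign_of_fixedPointFree_involution {A : Type*} [Fintype A] [DecidableEq A]
    (hA : Fintype.card A % 4 = 2) (σ : Equiv.Perm A) (h2 : σ ^ 2 = 1) (hfix : ∀ a, σ a ≠ a) :
    Equiv.Perm.sign σ = -1 := by
  have hne : σ ≠ 1 := by
    intro h
    have hpos : 0 < Fintype.card A := by omega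
    obtain ⟨a⟩ := Fintype.card_pos_iff.mp hpos
    exact hfix a (by rw [h]; rfl)
  have hord : orderOf σ = 2 := orderOf_eq_prime h2 hne
  obtain ⟨n, hn⟩ := Equiv.Perm.cycleType_prime_order (σ := σ) (by rw [hord]; exact Nat.prime_two)
  rw [hord] at hn
  have hsum := Equiv.Perm.sum_cycleType σ
  have hsupp : σ.support = Finset.univ := by
    ext a
    simp [hfix a]
  rw [hsupp, Finset.card_univ, hn, Multiset.sum_replicate, smul_eq_mul] at hsum
  rw [Equiv.Perm.sign_of_cycleType, hn, Multiset.sum_replicate, Multiset.card_replicate,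
    smul_eq_mul]
  have : Odd ((n + 1) * 2 + (n + 1)) := by
    rw [Nat.odd_iff]
    omega
  exact this.neg_one_pow

theorem no_latin_structure {v : ℕ} (hv : v % 4 = 2) {A B C Z4 Z5 Z6 Zp : Type*}
    [Fintype A] [Fintype B] [Fintype C] [Fintype Z4] [Fintype Z5] [Fintype Z6] [Fintype Zp]
    (hA : Fintype.card A = v) (hB : Fintype.card B = v) (hC : Fintype.card C = v)
    (hZ5 : Fintype.card Z5 = v) (hZ6 : Fintype.card Z6 = v)
    (hZp : Fintype.card Zp = v)
    (m : A → B → Z4) (n : A → B → Zp) (f : B → C → Z5) (g : A → C → Z6)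
    (m1 : ∀ a, Injective (m a)) (m2 : ∀ b, Injective (fun a => m a b))
    (n1 : ∀ a, Injective (n a)) (n2 : ∀ b, Injective (fun a => n a b))
    (mn : ∀ a b a' b', m a b = m a' b' → n a b = n a' b' → a = a')
    (f2 : ∀ c, Injective (fun b => f b c))
    (g1 : ∀ a, Injective (g a)) (g2 : ∀ c, Injective (fun a => g a c))
    (k : ∀ a b c a' b' c', f b c = f b' c' → g a c = g a' c' → m a b = m a' b') : False := by
  classical
  have hpos : 0 < v := by omega
  obtain ⟨a0⟩ : Nonempty A := Fintype.card_pos_iff.mp (by omega)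
  obtain ⟨b0⟩ : Nonempty B := Fintype.card_pos_iff.mp (by omega)
  obtain ⟨c0⟩ : Nonempty C := Fintype.card_pos_iff.mp (by omega)
  have gb : ∀ c, Bijective (fun a => g a c) := fun c =>
    (Fintype.bijective_iff_injective_and_card _).mpr ⟨g2 c, by omega⟩
  have gb' : ∀ a, Bijective (g a) := fun a =>
    (Fintype.bijective_iff_injective_and_card _).mpr ⟨g1 a, by omega⟩
  have fb : ∀ c, Bijective (fun b => f b c) := fun c =>
    (Fintype.bijective_iff_injective_and_card _).mpr ⟨f2 c, by omega⟩
  have nb : ∀ a, Bijective (n a) := fun a =>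
    (Fintype.bijective_iff_injective_and_card _).mpr ⟨n1 a, by omega⟩
  -- the permutations
  let ζ : C → A ≃ Z6 := fun c => Equiv.ofBijective _ (gb c)
  let η : C → B ≃ Z5 := fun c => Equiv.ofBijective _ (fb c)
  let τ : C → Equiv.Perm A := fun c => (ζ c).trans (ζ c0).symm
  let ρ : C → Equiv.Perm B := fun c => (η c).trans (η c0).symm
  have hτ : ∀ c a, g (τ c a) c0 = g a c := by
    intro c a
    exact (ζ c0).apply_symm_apply (g a c)
  have hρ : ∀ c b, f (ρ c b) c0 = f b c := by
    intro c b
    exact (η c0).apply_symm_apply (f b c)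
  have haut : ∀ c a b, m (τ c a) (ρ c b) = m a b := by
    intro c a b
    exact k _ _ c0 _ _ c (hρ c b) (hτ c a)
  -- the group
  let G : Subgroup (Equiv.Perm A × Equiv.Perm B) :=
    { carrier := {x | ∀ a b, m (x.1 a) (x.2 b) = m a b}
      one_mem' := fun a b => rfl
      mul_mem' := by
        intro x y hx hy a b
        have h1 := hx (y.1 a) (y.2 b)
        have h2 := hy a b
        simp only [Prod.fst_mul, Prod.snd_mul, Equiv.Perm.mul_apply]
        rw [h1, h2]
      inv_mem' := by
        intro x hx a b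
        have h1 := hx (x.1⁻¹ a) (x.2⁻¹ b)
        have h2 : x.1 (x.1⁻¹ a) = a := x.1.apply_symm_apply a
        have h3 : x.2 (x.2⁻¹ b) = b := x.2.apply_symm_apply b
        rw [h2, h3] at h1
        simp only [Prod.fst_inv, Prod.snd_inv]
        exact h1.symm }
  have hG : ∀ x : G, ∀ a b, m (x.1.1 a) (x.1.2 b) = m a b := fun x => x.2
  have free1 : ∀ x : G, ∀ a, x.1.1 a = a → x = 1 := by
    intro x a ha
    have h2 : ∀ b, x.1.2 b = b := by
      intro b
      have := hG x a b
      rw [ha] at this
      exact m1 a this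
    have h1 : ∀ a', x.1.1 a' = a' := by
      intro a'
      have := hG x a' b0
      rw [h2 b0] at this
      exact m2 b0 this
    apply Subtype.ext
    apply Prod.ext
    · exact Equiv.ext h1
    · exact Equiv.ext h2
  have free2 : ∀ x : G, ∀ b, x.1.2 b = b → x = 1 := by
    intro x b hb
    have h1 : ∀ a', x.1.1 a' = a' := by
      intro a'
      have := hG x a' b
      rw [hb] at this
      exact m2 b this
    exact free1 x a0 (h1 a0)
  have inj1 : Injective (fun x : G => x.1.1 a0) := by
    intro x y hxy
    have : y⁻¹ * x = 1 := by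
      apply free1 _ a0
      simp only [Subgroup.coe_mul, Subgroup.coe_inv, Prod.fst_mul, Prod.fst_inv,
        Equiv.Perm.mul_apply]
      rw [Equiv.Perm.inv_eq_iff_eq]
      exact hxy
    exact (inv_mul_eq_one.mp this).symm
  have inj2 : Injective (fun x : G => x.1.2 b0) := by
    intro x y hxy
    have : y⁻¹ * x = 1 := by
      apply free2 _ b0
      simp only [Subgroup.coe_mul, Subgroup.coe_inv, Prod.snd_mul, Prod.snd_inv,
        Equiv.Perm.mul_apply]
      rw [Equiv.Perm.inv_eq_iff_eq]
      exact hxy
    exact (inv_mul_eq_one.mp this).symm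
  have surj1 : Surjective (fun x : G => x.1.1 a0) := by
    intro a
    obtain ⟨c, hc⟩ := (gb' a0).2 (g a c0)
    refine ⟨⟨(τ c, ρ c), haut c⟩, ?_⟩
    apply g2 c0
    change g (τ c a0) c0 = g a c0
    rw [hτ, hc]
  have bij1 : Bijective (fun x : G => x.1.1 a0) := ⟨inj1, surj1⟩
  have cardG : Fintype.card G = v := by
    rw [Fintype.card_of_bijective bij1, hA]
  have bij2 : Bijective (fun x : G => x.1.2 b0) :=
    (Fintype.bijective_iff_injective_and_card _).mpr ⟨inj2, by omega⟩
  -- sign homomorphism
  let ε : G →* ℤˣ := (Equiv.Perm.sign.comp (MonoidHom.fst _ _)).comp G.subtype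
  have hε : ∀ x : G, ε x = Equiv.Perm.sign x.1.1 := fun x => rfl
  -- an element of sign -1
  obtain ⟨s, hs⟩ := exists_prime_orderOf_dvd_card (G := G) 2
    (by rw [cardG]; omega)
  have hs2 : s ^ 2 = 1 := by rw [← hs]; exact pow_orderOf_eq_one s
  have hs1 : s ≠ 1 := by
    rintro rfl
    rw [orderOf_one] at hs
    omega
  have hεs : ε s = -1 := by
    rw [hε]
    apply sign_of_fixedPointFree_involution (by rw [hA]; exact hv)
    · have h3 : (s ^ 2 : G).1.1 = 1 := by rw [hs2]; rfl
      rw [← h3]
      rfl
    · intro a ha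
      exact hs1 (free1 s a ha)
  -- the product of all signs is -1
  have hE : ∏ x : G, ε x = -1 := by
    have h1 : (Finset.univ.filter fun x : G => ε x = -1).card =
        (Finset.univ.filter fun x : G => ε x = 1).card := by
      apply Finset.card_bij (fun x _ => s * x)
      · intro x hx
        simp only [Finset.mem_filter, Finset.mem_univ, true_and] at hx ⊢
        rw [map_mul, hεs, hx]
        rfl
      · intro x _ y _ h
        exact mul_left_cancel h
      · intro x hx
        simp only [Finset.mem_filter, Finset.mem_univ, true_and] at hx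
        refine ⟨s⁻¹ * x, ?_, by group⟩
        simp only [Finset.mem_filter, Finset.mem_univ, true_and]
        rw [map_mul, map_inv, hεs, hx]
        rfl
    have h2 : (Finset.univ.filter fun x : G => ε x = 1).card +
        (Finset.univ.filter fun x : G => ε x = -1).card = v := by
      rw [← cardG, ← Finset.card_univ]
      rw [← Finset.card_filter_add_card_filter_not (s := Finset.univ) (fun x : G => ε x = 1)]
      congr 2
      ext x
      simp only [Finset.mem_filter, Finset.mem_univ, true_and]
      rcases Int.units_eq_one_or (ε x) with h | h <;> rw [h] <;> simp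
    have h3 : ∏ x : G, ε x = (-1) ^ (Finset.univ.filter fun x : G => ε x = -1).card := by
      rw [← Finset.prod_filter_mul_prod_filter_not Finset.univ (fun x : G => ε x = -1)]
      rw [Finset.prod_congr rfl (g := fun _ => (-1 : ℤˣ))
        (fun x hx => (Finset.mem_filter.mp hx).2), Finset.prod_const]
      rw [Finset.prod_congr rfl (g := fun _ => (1 : ℤˣ)), Finset.prod_const_one, mul_one]
      intro x hx
      rcases Int.units_eq_one_or (ε x) with h | h
      · exact h
      · exact absurd h (Finset.mem_filter.mp hx).2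
    rw [h3]
    apply Odd.neg_one_pow
    rw [Nat.odd_iff]
    omega
  -- transversal
  let z : Zp := n a0 b0
  let θ : A → B := fun a => (Equiv.ofBijective _ (nb a)).symm z
  have hθ : ∀ a, n a (θ a) = z := fun a => (Equiv.ofBijective _ (nb a)).apply_symm_apply z
  have θinj : Injective θ := by
    intro a a' h
    have h1 := hθ a
    have h2 := hθ a'
    rw [← h] at h2
    exact n2 (θ a) (h1.trans h2.symm)
  have θbij : Bijective θ := (Fintype.bijective_iff_injective_and_card _).mpr ⟨θinj, by omega⟩
  let γ : A ≃ G := (Equiv.ofBijective _ bij1).symm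
  have hγ : ∀ a, (γ a).1.1 a0 = a := fun a => (Equiv.ofBijective _ bij1).apply_symm_apply a
  let δ : A ≃ G := (Equiv.ofBijective θ θbij).trans (Equiv.ofBijective _ bij2).symm
  have hδ : ∀ a, (δ a).1.2 b0 = θ a := fun a =>
    (Equiv.ofBijective _ bij2).apply_symm_apply (θ a)
  have hm : ∀ a, m a (θ a) = m a0 (((γ a)⁻¹ * δ a).1.2 b0) := by
    intro a
    have h1 := hG (γ a) a0 (((γ a)⁻¹ * δ a).1.2 b0)
    rw [← h1, hγ]
    congr 1
    simp only [Subgroup.coe_mul, Subgroup.coe_inv, Prod.snd_mul, Prod.snd_inv,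
      Equiv.Perm.mul_apply]
    have h2 : (γ a).1.2 ((γ a).1.2⁻¹ ((δ a).1.2 b0)) = (δ a).1.2 b0 :=
      (γ a).1.2.apply_symm_apply _
    rw [h2]
    exact (hδ a).symm
  have κinj : Injective (fun a => (γ a)⁻¹ * δ a) := by
    intro a a' h
    simp only at h
    have h1 := hm a
    rw [h, ← hm a'] at h1
    exact mn _ _ _ _ h1 ((hθ a).trans (hθ a').symm)
  have κbij : Bijective (fun a => (γ a)⁻¹ * δ a) :=
    (Fintype.bijective_iff_injective_and_card _).mpr ⟨κinj, by omega⟩
  have e1 : ∏ a, ε ((γ a)⁻¹ * δ a) = ∏ x : G, ε x :=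
    Fintype.prod_bijective _ κbij _ _ (fun _ => rfl)
  have e2 : ∏ a, ε (γ a) = ∏ x : G, ε x := Fintype.prod_bijective _ γ.bijective _ _ (fun _ => rfl)
  have e3 : ∏ a, ε (δ a) = ∏ x : G, ε x := Fintype.prod_bijective _ δ.bijective _ _ (fun _ => rfl)
  simp only [map_mul, map_inv, Finset.prod_mul_distrib, Finset.prod_inv_distrib] at e1
  rw [e2, e3, hE] at e1
  exact absurd e1 (by decide)

end Pool.Agent.H17.PChar
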