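import Mathlib
import Pool.Agent.H17.PChar.Entropy
import Pool.Agent.H17.PChar.Latin

/-!
From entropies to Latin squares.
-/

namespace Pool.Agent.H17.PChar

open scoped ENNReal
open Real

section

variable {Ω β γ δ : Type*}

theorem map_apply_ne_zero (p : PMF Ω) (f : Ω → β) (b : β) :
    (p.map f) b ≠ 0 ↔ ∃ x, p x ≠ 0 ∧ f x = b := by
  rw [← PMF.mem_support_iff, PMF.mem_support_map_iff]
  simp [PMF.mem_support_iff]

theorem det_of_entropy (p : PMF Ω) (f : Ω → β) (g : Ω → γ)
    (h : entropy (p.map fun x => (f x, g x)) = entropy (p.map f))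
    (hfin : entropy (p.map f) ≠ ∞) {x y : Ω} (hx : p x ≠ 0) (hy : p y ≠ 0) (hf : f x = f y) :
    g x = g y := by
  have h1 : (p.map fun x => (f x, g x)).map Prod.fst = p.map f := by
    rw [PMF.map_comp]; rfl
  refine determined_of_entropy_eq (p.map fun x => (f x, g x)) (by rw [h1, h]) (by rwa [h]) (f x)
    (g x) (g y) ?_ ?_
  · rw [map_apply_ne_zero]
    exact ⟨x, hx, rfl⟩
  · rw [map_apply_ne_zero]
    exact ⟨y, hy, by rw [hf]⟩

theorem indep_of_entropy (p : PMF Ω) (f : Ω → β) (g : Ω → γ)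
    (h : entropy (p.map fun x => (f x, g x)) = entropy (p.map f) + entropy (p.map g))
    (hfin : entropy (p.map fun x => (f x, g x)) ≠ ∞) (b : β) (c : γ) :
    (p.map fun x => (f x, g x)) (b, c) = (p.map f) b * (p.map g) c := by
  have h1 : (p.map fun x => (f x, g x)).map Prod.fst = p.map f := by
    rw [PMF.map_comp]; rfl
  have h2 : (p.map fun x => (f x, g x)).map Prod.snd = p.map g := by
    rw [PMF.map_comp]; rfl
  have := indep_of_entropy_add (p.map fun x => (f x, g x)) (by rw [h1, h2, h]) hfin b c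
  rwa [h1, h2] at this

theorem map_pair_congr (p : PMF Ω) (f : Ω → β) (g : Ω → γ) (g' : Ω → δ) (b : β) (c : γ) (d : δ)
    (h : ∀ y, p y ≠ 0 → f y = b → (g y = c ↔ g' y = d)) :
    (p.map fun x => (f x, g x)) (b, c) = (p.map fun x => (f x, g' x)) (b, d) := by
  classical
  rw [PMF.map_apply, PMF.map_apply]
  refine tsum_congr fun y => ?_
  by_cases hy : p y = 0
  · simp [hy]
  · by_cases hf : f y = b
    · have := h y hy hf
      by_cases hc : g y = c
      · rw [if_pos (by rw [hf, hc]), if_pos (by rw [hf, this.mp hc])]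
      · have hd : g' y ≠ d := fun hd => hc (this.mpr hd)
        rw [if_neg, if_neg]
        · intro h'
          exact hd (Prod.ext_iff.mp h').2.symm
        · intro h'
          exact hc (Prod.ext_iff.mp h').2.symm
    · rw [if_neg, if_neg]
      · intro h'
        exact hf (Prod.ext_iff.mp h').1.symm
      · intro h'
        exact hf (Prod.ext_iff.mp h').1.symm

end

section uniform

variable {Ω : Type*}

/-- Three discrete random variables, pairwise independent, each a function of the two others: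
all three are uniform. -/
theorem prob_eq_of_line (p : PMF Ω) (f g h : Ω → ℕ)
    (ifg : ∀ b c, (p.map fun x => (f x, g x)) (b, c) = (p.map f) b * (p.map g) c)
    (ifh : ∀ b c, (p.map fun x => (f x, h x)) (b, c) = (p.map f) b * (p.map h) c)
    (dh : ∀ x y, p x ≠ 0 → p y ≠ 0 → f x = f y → g x = g y → h x = h y)
    (dg : ∀ x y, p x ≠ 0 → p y ≠ 0 → f x = f y → h x = h y → g x = g y)
    (x : Ω) (hx : p x ≠ 0) : (p.map g) (g x) = (p.map h) (h x) := by
  have h1 : (p.map fun x => (f x, g x)) (f x, g x) = (p.map fun x => (f x, h x)) (f x, h x) := by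
    apply map_pair_congr
    intro y hy hf
    exact ⟨fun hg => dh y x hy hx hf hg, fun hh => dg y x hy hx hf hh⟩
  rw [ifg, ifh] at h1
  have h2 : (p.map f) (f x) ≠ 0 := (map_apply_ne_zero p f _).mpr ⟨x, hx, rfl⟩
  exact (ENNReal.mul_right_inj h2 (PMF.apply_ne_top _ _)).mp h1

theorem encard_support_of_const {q : PMF ℕ} {v : ℕ} (hv : 2 ≤ v) (u : ℝ≥0∞)
    (hu : ∀ a, q a ≠ 0 → q a = u) (hH : entropy q = ENNReal.ofReal (log v)) :
    q.support.encard = v := by
  obtain ⟨a0, ha0⟩ := q.support_nonempty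
  have hu0 : u ≠ 0 := by rw [← hu a0 ha0]; exact ha0
  have hu1 : u ≤ 1 := by rw [← hu a0 ha0]; exact q.coe_le_one a0
  have hutop : u ≠ ∞ := ne_top_of_le_ne_top ENNReal.one_ne_top hu1
  have h1 : entropy q = ENNReal.ofReal (-log u.toReal) := by
    unfold entropy
    have : ∀ b, ENNReal.ofReal (negMulLog (q b).toReal) =
        q b * ENNReal.ofReal (-log u.toReal) := by
      intro b
      by_cases hb : q b = 0
      · simp [hb]
      · rw [hu b hb, negMulLog, neg_mul, ← mul_neg, ENNReal.ofReal_mul ENNReal.toReal_nonneg,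
          ENNReal.ofReal_toReal hutop]
    simp only [this]
    rw [ENNReal.tsum_mul_right, q.tsum_coe, one_mul]
  rw [h1] at hH
  have hlogv : 0 ≤ log (v : ℝ) := log_natCast_nonneg v
  have hupos : 0 < u.toReal := ENNReal.toReal_pos hu0 hutop
  have hule : u.toReal ≤ 1 := ENNReal.toReal_le_of_le_ofReal zero_le_one (by simpa using hu1)
  have hlogu : 0 ≤ -log u.toReal := by
    rw [Left.nonneg_neg_iff]
    exact log_nonpos hupos.le hule
  have h2 : -log u.toReal = log v := (ENNReal.ofReal_eq_ofReal_iff hlogu hlogv).mp hH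
  have hvpos : (0 : ℝ) < v := by positivity
  have h3 : u.toReal = (v : ℝ)⁻¹ := by
    rw [← log_inv] at h2
    have := log_injOn_pos (Set.mem_Ioi.mpr (inv_pos.mpr hupos)) (Set.mem_Ioi.mpr hvpos) h2
    rw [← this, inv_inv]
  have h4 : u = (v : ℝ≥0∞)⁻¹ := by
    rw [← ENNReal.ofReal_toReal hutop, h3, ENNReal.ofReal_inv_of_pos hvpos, ENNReal.ofReal_natCast]
  have h5 : ∑' a, q a = (q.support.encard : ℝ≥0∞) * u := by
    rw [← ENNReal.tsum_set_const]
    rw [← tsum_subtype_eq_of_support_subset (s := q.support) (by rfl)]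
    refine tsum_congr fun a => ?_
    exact hu a a.2
  rw [q.tsum_coe, h4] at h5
  have hv0 : (v : ℝ≥0∞) ≠ 0 := by
    simp only [ne_eq, Nat.cast_eq_zero]
    omega
  have hvt : (v : ℝ≥0∞) ≠ ∞ := ENNReal.natCast_ne_top v
  have h6 : (q.support.encard : ℝ≥0∞) = v := by
    have := congrArg (· * (v : ℝ≥0∞)) h5
    simp only [one_mul, mul_assoc, ENNReal.inv_mul_cancel hv0 hvt, mul_one] at this
    exact this.symm
  exact_mod_cast h6

end uniform

end Pool.Agent.H17.PChar
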