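import Mathlib
import Pool.Agent.H17.PChar.Structure

/-!
The seven-element matroid `N7 = M(K_4) + point on a line` has no p-representation of order
congruent to `2` mod `4`.
-/

namespace Pool.Agent.H17.PChar

open scoped ENNReal
open Real

/-- the lines (with at least three points) of `N7` -/
def lines : List (Finset (Fin 7)) := [{0, 1, 3, 6}, {1, 2, 4}, {0, 2, 5}, {3, 4, 5}]

/-- collinear triples of distinct points -/
def Col (i j k : Fin 7) : Prop :=
  i ≠ j ∧ i ≠ k ∧ j ≠ k ∧ ∃ l ∈ lines, i ∈ l ∧ j ∈ l ∧ k ∈ l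

instance (i j k : Fin 7) : Decidable (Col i j k) := by unfold Col; infer_instance

theorem no_N7 {v : ℕ} (hv : v % 4 = 2) (p : PMF (Fin 7 → ℕ))
    (h1 : ∀ i, entropy (p.map fun x => x i) = ENNReal.ofReal (log v))
    (h2 : ∀ i j, i ≠ j → entropy (p.map fun x => (x i, x j)) = ENNReal.ofReal (log v * 2))
    (hl : ∀ i j k, Col i j k →
      entropy (p.map fun x => ((x i, x j), x k)) = ENNReal.ofReal (log v * 2))
    (hb : entropy (p.map fun x => ((x 0, x 1), x 2)) = ENNReal.ofReal (log v * 3)) : False := by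
  classical
  have hlog : 0 ≤ log (v : ℝ) := log_natCast_nonneg v
  -- pairwise independence
  have ind2 : ∀ i j, i ≠ j → ∀ b c, (p.map fun x => (x i, x j)) (b, c) =
      (p.map fun x => x i) b * (p.map fun x => x j) c := by
    intro i j hij b c
    apply indep_of_entropy p (fun x => x i) (fun x => x j)
    · rw [h1, h1, h2 i j hij, ← ENNReal.ofReal_add hlog hlog]
      congr 1
      ring
    · rw [h2 i j hij]
      exact ENNReal.ofReal_ne_top
  -- determination on lines
  have det : ∀ i j k, Col i j k → ∀ x y, p x ≠ 0 → p y ≠ 0 → x i = y i → x j = y j →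
      x k = y k := by
    intro i j k hijk x y hx hy hi hj
    refine det_of_entropy p (fun x => (x i, x j)) (fun x => x k) ?_ ?_ hx hy ?_
    · rw [h2 i j hijk.1]
      exact hl i j k hijk
    · rw [h2 i j hijk.1]
      exact ENNReal.ofReal_ne_top
    · simp only [hi, hj]
  -- pairs are realised
  have real2 : ∀ i j, i ≠ j → ∀ b c, (p.map fun x => x i) b ≠ 0 → (p.map fun x => x j) c ≠ 0 →
      ∃ x, p x ≠ 0 ∧ x i = b ∧ x j = c := by
    intro i j hij b c hb' hc'
    have := ind2 i j hij b c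
    have hne : (p.map fun x => (x i, x j)) (b, c) ≠ 0 := by
      rw [this]
      exact mul_ne_zero hb' hc'
    obtain ⟨x, hx, hxe⟩ := (map_apply_ne_zero p _ _).mp hne
    exact ⟨x, hx, (Prod.ext_iff.mp hxe).1, (Prod.ext_iff.mp hxe).2⟩
  -- uniformity
  have step : ∀ i j k, Col i j k → ∀ x, p x ≠ 0 →
      (p.map fun x => x j) (x j) = (p.map fun x => x k) (x k) := by
    intro i j k hijk x hx
    have hikj : Col i k j := ⟨hijk.2.1, hijk.1, hijk.2.2.1.symm, by
      obtain ⟨l, hl, a, b, c⟩ := hijk.2.2.2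
      exact ⟨l, hl, a, c, b⟩⟩
    exact prob_eq_of_line p (fun x => x i) (fun x => x j) (fun x => x k)
      (ind2 i j hijk.1) (ind2 i k hijk.2.1) (fun x y hx hy => det i j k hijk x y hx hy)
      (fun x y hx hy => det i k j hikj x y hx hy) x hx
  have const : ∀ i j k, Col i j k → ∀ x y, p x ≠ 0 → p y ≠ 0 →
      (p.map fun x => x j) (x j) = (p.map fun x => x j) (y j) := by
    intro i j k hijk x y hx hy
    obtain ⟨z, hz, hz1, hz2⟩ := real2 j k hijk.2.2.1 (x j) (y k)
      ((map_apply_ne_zero p _ _).mpr ⟨x, hx, rfl⟩) ((map_apply_ne_zero p _ _).mpr ⟨y, hy, rfl⟩)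
    calc (p.map fun x => x j) (x j) = (p.map fun x => x j) (z j) := by rw [hz1]
      _ = (p.map fun x => x k) (z k) := step i j k hijk z hz
      _ = (p.map fun x => x k) (y k) := by rw [hz2]
      _ = (p.map fun x => x j) (y j) := (step i j k hijk y hy).symm
  obtain ⟨x₀, hx₀⟩ := p.support_nonempty
  have hcard : ∀ j, (p.map fun x => x j).support.encard = v := by
    intro j
    have hex : ∃ i k, Col i j k := by
      revert j
      decide
    obtain ⟨i, k, hijk⟩ := hex
    refine encard_support_of_const (by omega) ((p.map fun x => x j) (x₀ j)) ?_ (h1 j)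
    intro a ha
    obtain ⟨x, hx, rfl⟩ := (map_apply_ne_zero p _ _).mp ha
    exact const i j k hijk x x₀ hx hx₀
  -- the value types
  let S : Fin 7 → Type := fun j => (p.map fun x => x j).support
  have hfin : ∀ j, Finite (S j) := fun j =>
    Set.finite_coe_iff.mpr (Set.finite_of_encard_eq_coe (hcard j))
  let _ : ∀ j, Fintype (S j) := fun j => Fintype.ofFinite _
  have hS : ∀ j, Fintype.card (S j) = v := by
    intro j
    rw [← Nat.card_eq_fintype_card]
    have : (p.map fun x => x j).support.ncard = v := by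
      rw [Set.ncard, hcard j]
      rfl
    exact this
  have memS : ∀ j x, p x ≠ 0 → x j ∈ (p.map fun x => x j).support := by
    intro j x hx
    rw [PMF.mem_support_iff, map_apply_ne_zero]
    exact ⟨x, hx, rfl⟩
  -- triples are realised
  have real3 : ∀ (a : S 0) (b : S 1) (c : S 2), ∃ x, p x ≠ 0 ∧ x 0 = a.1 ∧ x 1 = b.1 ∧
      x 2 = c.1 := by
    intro a b c
    have := indep_of_entropy p (fun x => (x 0, x 1)) (fun x => x 2)
      (by
        rw [hb, h2 0 1 (by decide), h1, ← ENNReal.ofReal_add (by positivity) hlog]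
        congr 1
        ring)
      (by rw [hb]; exact ENNReal.ofReal_ne_top) (a.1, b.1) c.1
    have hne : (p.map fun x => ((x 0, x 1), x 2)) ((a.1, b.1), c.1) ≠ 0 := by
      rw [this, ind2 0 1 (by decide)]
      exact mul_ne_zero (mul_ne_zero a.2 b.2) c.2
    obtain ⟨x, hx, hxe⟩ := (map_apply_ne_zero p _ _).mp hne
    simp only [Prod.mk.injEq] at hxe
    exact ⟨x, hx, hxe.1.1, hxe.1.2, hxe.2⟩
  -- choose points
  have e01 : ∀ (a : S 0) (b : S 1), ∃ x, p x ≠ 0 ∧ x 0 = a.1 ∧ x 1 = b.1 := fun a b =>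
    real2 0 1 (by decide) a.1 b.1 a.2 b.2
  have e12 : ∀ (b : S 1) (c : S 2), ∃ x, p x ≠ 0 ∧ x 1 = b.1 ∧ x 2 = c.1 := fun a b =>
    real2 1 2 (by decide) a.1 b.1 a.2 b.2
  have e02 : ∀ (a : S 0) (c : S 2), ∃ x, p x ≠ 0 ∧ x 0 = a.1 ∧ x 2 = c.1 := fun a b =>
    real2 0 2 (by decide) a.1 b.1 a.2 b.2
  choose P hP hP0 hP1 using e01
  choose Q hQ hQ1 hQ2 using e12
  choose R hR hR0 hR2 using e02
  let m : S 0 → S 1 → S 3 := fun a b => ⟨P a b 3, memS 3 _ (hP a b)⟩
  let n : S 0 → S 1 → S 6 := fun a b => ⟨P a b 6, memS 6 _ (hP a b)⟩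
  let f : S 1 → S 2 → S 4 := fun b c => ⟨Q b c 4, memS 4 _ (hQ b c)⟩
  let g : S 0 → S 2 → S 5 := fun a c => ⟨R a c 5, memS 5 _ (hR a c)⟩
  refine no_latin_structure hv (hS 0) (hS 1) (hS 2) (hS 4) (hS 5) (hS 6) m n f g
    ?_ ?_ ?_ ?_ ?_ ?_ ?_ ?_ ?_
  · -- m1
    intro a b b' h
    have h' : P a b 3 = P a b' 3 := congrArg Subtype.val h
    apply Subtype.ext
    rw [← hP1 a b, ← hP1 a b']
    exact det 0 3 1 (by decide) _ _ (hP a b) (hP a b') (by rw [hP0, hP0]) h'
  · -- m2
    intro b a a' h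
    have h' : P a b 3 = P a' b 3 := congrArg Subtype.val h
    apply Subtype.ext
    rw [← hP0 a b, ← hP0 a' b]
    exact det 1 3 0 (by decide) _ _ (hP a b) (hP a' b) (by rw [hP1, hP1]) h'
  · -- n1
    intro a b b' h
    have h' : P a b 6 = P a b' 6 := congrArg Subtype.val h
    apply Subtype.ext
    rw [← hP1 a b, ← hP1 a b']
    exact det 0 6 1 (by decide) _ _ (hP a b) (hP a b') (by rw [hP0, hP0]) h'
  · -- n2
    intro b a a' h
    have h' : P a b 6 = P a' b 6 := congrArg Subtype.val h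
    apply Subtype.ext
    rw [← hP0 a b, ← hP0 a' b]
    exact det 1 6 0 (by decide) _ _ (hP a b) (hP a' b) (by rw [hP1, hP1]) h'
  · -- mn
    intro a b a' b' hm hn
    have hm' : P a b 3 = P a' b' 3 := congrArg Subtype.val hm
    have hn' : P a b 6 = P a' b' 6 := congrArg Subtype.val hn
    apply Subtype.ext
    rw [← hP0 a b, ← hP0 a' b']
    exact det 3 6 0 (by decide) _ _ (hP a b) (hP a' b') hm' hn'
  · -- f2
    intro c b b' h
    have h' : Q b c 4 = Q b' c 4 := congrArg Subtype.val h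
    apply Subtype.ext
    rw [← hQ1 b c, ← hQ1 b' c]
    exact det 2 4 1 (by decide) _ _ (hQ b c) (hQ b' c) (by rw [hQ2, hQ2]) h'
  · -- g1
    intro a c c' h
    have h' : R a c 5 = R a c' 5 := congrArg Subtype.val h
    apply Subtype.ext
    rw [← hR2 a c, ← hR2 a c']
    exact det 0 5 2 (by decide) _ _ (hR a c) (hR a c') (by rw [hR0, hR0]) h'
  · -- g2
    intro c a a' h
    have h' : R a c 5 = R a' c 5 := congrArg Subtype.val h
    apply Subtype.ext
    rw [← hR0 a c, ← hR0 a' c]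
    exact det 2 5 0 (by decide) _ _ (hR a c) (hR a' c) (by rw [hR2, hR2]) h'
  · -- k
    intro a b c a' b' c' hf hg
    have hf' : Q b c 4 = Q b' c' 4 := congrArg Subtype.val hf
    have hg' : R a c 5 = R a' c' 5 := congrArg Subtype.val hg
    obtain ⟨x, hx, hxa, hxb, hxc⟩ := real3 a b c
    obtain ⟨y, hy, hya, hyb, hyc⟩ := real3 a' b' c'
    have x4 : x 4 = Q b c 4 := det 1 2 4 (by decide) _ _ hx (hQ b c) (by rw [hxb, hQ1])
      (by rw [hxc, hQ2])
    have y4 : y 4 = Q b' c' 4 := det 1 2 4 (by decide) _ _ hy (hQ b' c') (by rw [hyb, hQ1])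
      (by rw [hyc, hQ2])
    have x5 : x 5 = R a c 5 := det 0 2 5 (by decide) _ _ hx (hR a c) (by rw [hxa, hR0])
      (by rw [hxc, hR2])
    have y5 : y 5 = R a' c' 5 := det 0 2 5 (by decide) _ _ hy (hR a' c') (by rw [hya, hR0])
      (by rw [hyc, hR2])
    have x3 : x 3 = P a b 3 := det 0 1 3 (by decide) _ _ hx (hP a b) (by rw [hxa, hP0])
      (by rw [hxb, hP1])
    have y3 : y 3 = P a' b' 3 := det 0 1 3 (by decide) _ _ hy (hP a' b') (by rw [hya, hP0])
      (by rw [hyb, hP1])
    apply Subtype.ext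
    change P a b 3 = P a' b' 3
    rw [← x3, ← y3]
    exact det 4 5 3 (by decide) _ _ hx hy (by rw [x4, y4, hf']) (by rw [x5, y5, hg'])

end Pool.Agent.H17.PChar
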