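import Mathlib
import Pool.Agent.H17.PChar.Defs
import Pool.Agent.H17.PChar.NoRep

/-!
The matroid `N7` and its linear representations.
-/

namespace Pool.Agent.H17.PChar

open Set Module Submodule

/-- the linear matroid of a finite family of vectors -/
noncomputable def linMatroid {α : Type} [Finite α] (F : Type) [Field F] {W : Type}
    [AddCommGroup W] [Module F W] [FiniteDimensional F W] (φ : α → W) : Matroid α :=
  (IndepMatroid.ofFinite (Set.finite_univ) (fun I => LinearIndepOn F φ I)
    (linearIndepOn_empty F φ)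
    (fun _ _ hJ hIJ => hJ.mono hIJ)
    (by
      intro I J hI hJ hIJ
      by_contra hcon
      push Not at hcon
      have h1 : ∀ e ∈ J, φ e ∈ span F (φ '' I) := by
        intro e he
        by_cases heI : e ∈ I
        · exact subset_span (mem_image_of_mem φ heI)
        · have h2 := hcon e he heI
          rw [linearIndepOn_insert heI] at h2
          by_contra h3
          exact h2 ⟨hI, h3⟩
      have h2 : span F (φ '' J) ≤ span F (φ '' I) := by
        rw [span_le]
        rintro _ ⟨e, he, rfl⟩
        exact h1 e he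
      have h3 := Submodule.finrank_mono h2
      have h4 : ∀ K : Set α, LinearIndepOn F φ K → finrank F (span F (φ '' K)) = K.ncard := by
        intro K hK
        classical
        have := Fintype.ofFinite K
        have h5 := finrank_span_eq_card hK
        rw [← Nat.card_coe_set_eq, Nat.card_eq_fintype_card, ← h5, image_eq_range]
      rw [h4 I hI, h4 J hJ] at h3
      omega)
    (fun _ _ => Set.subset_univ _)).matroid

theorem linMatroid_indep {α : Type} [Finite α] (F : Type) [Field F] {W : Type}
    [AddCommGroup W] [Module F W] [FiniteDimensional F W] (φ : α → W) (I : Set α) :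
    (linMatroid F φ).Indep I ↔ LinearIndepOn F φ I := by
  rfl

theorem linMatroid_E {α : Type} [Finite α] (F : Type) [Field F] {W : Type}
    [AddCommGroup W] [Module F W] [FiniteDimensional F W] (φ : α → W) :
    (linMatroid F φ).E = Set.univ := by
  rfl

/-- minors of representable matroids are representable -/
theorem Representable.minor {α : Type*} {F : Type} [Field F] {M N : Matroid α}
    (h : Representable F M) (hN : N ≤m M) : Representable F N := by
  obtain ⟨W, _, _, φ, hφ⟩ := h
  obtain ⟨C, D, hC, hD, hCD, rfl⟩ := hN.exists_eq_contract_delete_disjoint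
  obtain ⟨J, hJ⟩ := M.exists_isBasis C
  refine ⟨W ⧸ span F (φ '' J), inferInstance, inferInstance,
    fun x => (mkQ (span F (φ '' J))) (φ x), ?_⟩
  intro I hI
  rw [Matroid.delete_ground, Matroid.contract_ground] at hI
  have hIE : I ⊆ M.E := fun x hx => (hI hx).1.1
  have hCI : Disjoint C I := by
    rw [Set.disjoint_left]
    intro x hxC hxI
    exact (hI hxI).1.2 hxC
  have hDI : Disjoint I D := by
    rw [Set.disjoint_left]
    intro x hxI hxD
    exact (hI hxI).2 hxD
  rw [Matroid.delete_indep_iff, hJ.contract_indep_iff, and_iff_left hCI, and_iff_left hDI]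
  have hJE : J ⊆ M.E := hJ.indep.subset_ground
  have hJI : Disjoint J I := hCI.mono_left hJ.subset
  rw [hφ _ (union_subset hIE hJE), Set.union_comm, linearIndepOn_union_iff_quotient hJI]
  constructor
  · exact fun h => h.2
  · exact fun h => ⟨(hφ J hJE).mp hJ.indep, h⟩

/-- the vectors -/
def vec (F : Type) [Field F] (t : F) : Fin 7 → (Fin 3 → F) :=
  ![![1, 0, 0], ![0, 1, 0], ![0, 0, 1], ![1, -1, 0], ![0, 1, -1], ![1, 0, -1], ![1, -t, 0]]

/-- the independent sets of `N7` -/
def P (I : Finset (Fin 7)) : Prop := I.card ≤ 3 ∧ ∀ l ∈ lines, ¬ (I.card = 3 ∧ I ⊆ l)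

instance (I : Finset (Fin 7)) : Decidable (P I) := by unfold P; infer_instance

theorem det_iff (F : Type) [Field F] (t : F) (h0 : t ≠ 0) (h1 : t ≠ 1) (i j k : Fin 7)
    (hij : i < j) (hjk : j < k) :
    (Matrix.of ![vec F t i, vec F t j, vec F t k]).det ≠ 0 ↔ ¬ Col i j k := by
  have h2 : -t + 1 ≠ 0 := by
    intro h
    apply h1
    linear_combination -h
  have h3 : -1 + t ≠ 0 := by
    intro h
    apply h1
    linear_combination h
  fin_cases i <;> fin_cases j <;> first
    | (exact absurd hij (by decide))
    | (fin_cases k <;> first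
        | (exact absurd hjk (by decide))
        | (rw [Matrix.det_fin_three]; simp [vec, Col, lines, h0, h2, h3]))

theorem triple_iff (F : Type) [Field F] (t : F) (h0 : t ≠ 0) (h1 : t ≠ 1) (i j k : Fin 7)
    (hij : i < j) (hjk : j < k) :
    LinearIndepOn F (vec F t) ({i, j, k} : Set (Fin 7)) ↔ ¬ Col i j k := by
  rw [← det_iff F t h0 h1 i j k hij hjk]
  have hinj : Function.Injective (![i, j, k] : Fin 3 → Fin 7) := by
    intro a b hab
    fin_cases a <;> fin_cases b <;> simp at hab ⊢ <;> omega
  have hrange : Set.range (![i, j, k] : Fin 3 → Fin 7) = {i, j, k} := by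
    ext x
    simp only [Matrix.range_cons, Matrix.range_empty, Set.union_empty, Set.mem_union,
      Set.mem_singleton_iff, Set.mem_insert_iff]
  rw [← hrange, linearIndepOn_range_iff hinj]
  have h2 : vec F t ∘ ![i, j, k] = (Matrix.of ![vec F t i, vec F t j, vec F t k]).row := by
    ext a
    fin_cases a <;> rfl
  rw [h2, Matrix.linearIndependent_rows_iff_isUnit, Matrix.isUnit_iff_isUnit_det,
    isUnit_iff_ne_zero]

theorem exists_sorted_triple (I : Finset (Fin 7)) (h : I.card = 3) :
    ∃ i j k : Fin 7, i < j ∧ j < k ∧ I = {i, j, k} := by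
  revert I
  decide +kernel

theorem P_extend (I : Finset (Fin 7)) (h : P I) : ∃ J : Finset (Fin 7), I ⊆ J ∧ J.card = 3 ∧ P J := by
  revert I
  decide +kernel

theorem P_triple (i j k : Fin 7) (hij : i < j) (hjk : j < k) :
    P {i, j, k} ↔ ¬ Col i j k := by
  revert i j k
  decide +kernel

/-- for every field and every scalar `t ≠ 0, 1` the seven vectors have the same independent
sets -/
theorem li_iff (F : Type) [Field F] (t : F) (h0 : t ≠ 0) (h1 : t ≠ 1) (I : Finset (Fin 7)) :
    LinearIndepOn F (vec F t) (I : Set (Fin 7)) ↔ P I := by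
  constructor
  · intro h
    have hc : I.card ≤ 3 := by
      have h2 := h.encard_le_toENat_rank
      simp only [Set.encard_coe_eq_coe_finsetCard, rank_fin_fun] at h2
      have h3 : ((I.card : ℕ) : ℕ∞) ≤ ((3 : ℕ) : ℕ∞) := by simpa using h2
      exact_mod_cast h3
    refine ⟨hc, ?_⟩
    rintro l hl ⟨hc3, hIl⟩
    obtain ⟨i, j, k, hij, hjk, rfl⟩ := exists_sorted_triple I hc3
    have h4 : LinearIndepOn F (vec F t) ({i, j, k} : Set (Fin 7)) := by
      simpa using h
    rw [triple_iff F t h0 h1 i j k hij hjk] at h4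
    apply h4
    refine ⟨hij.ne, (hij.trans hjk).ne, hjk.ne, l, hl, ?_, ?_, ?_⟩
    · exact hIl (by simp)
    · exact hIl (by simp)
    · exact hIl (by simp)
  · intro h
    obtain ⟨J, hIJ, hJ3, hJ⟩ := P_extend I h
    obtain ⟨i, j, k, hij, hjk, rfl⟩ := exists_sorted_triple J hJ3
    have h4 := (triple_iff F t h0 h1 i j k hij hjk).mpr ((P_triple i j k hij hjk).mp hJ)
    apply h4.mono
    intro x hx
    have := hIJ (Finset.mem_coe.mp hx)
    simpa using this

/-- the seven-element matroid: `M(K_4)` with one more point on one of its lines -/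
noncomputable def N7 : Matroid (Fin 7) := linMatroid (ZMod 3) (vec (ZMod 3) 2)

theorem N7_E : N7.E = Set.univ := rfl

theorem N7_indep (I : Finset (Fin 7)) : N7.Indep (I : Set (Fin 7)) ↔ P I := by
  have : N7.Indep (I : Set (Fin 7)) ↔ LinearIndepOn (ZMod 3) (vec (ZMod 3) 2) (I : Set (Fin 7)) :=
    Iff.rfl
  rw [this]
  exact li_iff (ZMod 3) 2 (by decide) (by decide) I

theorem N7_representable (F : Type) [Field F] (hF : ∃ t : F, t ≠ 0 ∧ t ≠ 1) :
    Representable F N7 := by
  classical
  obtain ⟨t, h0, h1⟩ := hF
  refine ⟨Fin 3 → F, inferInstance, inferInstance, vec F t, ?_⟩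
  intro I _
  have hI : I = ((I.toFinite.toFinset : Finset (Fin 7)) : Set (Fin 7)) :=
    (Set.Finite.coe_toFinset _).symm
  rw [hI, N7_indep, li_iff F t h0 h1]

/-- rank computations -/
theorem N7_eRk (A B : Finset (Fin 7)) (hBA : B ⊆ A) (hB : P B)
    (h : ∀ e ∈ A, e ∉ B → ¬ P (insert e B)) : N7.eRk (A : Set (Fin 7)) = B.card := by
  classical
  have hbasis : N7.IsBasis (B : Set (Fin 7)) (A : Set (Fin 7)) := by
    apply ((N7_indep B).mpr hB).isBasis_of_forall_insert (by exact_mod_cast hBA)
    intro e he
    rw [Matroid.dep_iff]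
    constructor
    · rw [← Finset.coe_insert, N7_indep]
      exact h e (by simpa using he.1) (by simpa using he.2)
    · rw [N7_E]
      exact Set.subset_univ _
  rw [hbasis.eRk_eq_encard, Set.encard_coe_eq_coe_finsetCard]

end Pool.Agent.H17.PChar
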