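import Mathlib
import Pool.Agent.H17.PChar.Lin

/-!
Existence of a near-regular excluded minor for the class `M'`.
-/

namespace Pool.Agent.H17.PChar

open Set Module Submodule

/-! ### `N7` is not in the class -/

theorem P_single : ∀ i : Fin 7, P {i} := by decide +kernel

theorem P_pair : ∀ i j : Fin 7, P {i, j} := by decide +kernel

theorem P_base : P {0, 1, 2} := by decide +kernel

theorem not_P_3 : ¬ P {3, 0, 1} := by decide +kernel

theorem not_P_6 : ¬ P {6, 0, 1} := by decide +kernel

theorem line_insert : ∀ i j k : Fin 7, Col i j k →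
    ∀ e ∈ ({i, j, k} : Finset (Fin 7)), e ∉ ({i, j} : Finset (Fin 7)) →
      ¬ P (insert e {i, j}) := by decide +kernel

theorem zmod2 : ∀ a : ZMod 2, a = 0 ∨ a = 1 := by decide

theorem N7_not_binary : ¬ Representable (ZMod 2) N7 := by
  rintro ⟨W, _, _, φ, hφ⟩
  have h : ∀ I : Finset (Fin 7), P I ↔ LinearIndepOn (ZMod 2) φ (I : Set (Fin 7)) := by
    intro I
    rw [← N7_indep]
    exact hφ _ (by rw [N7_E]; exact Set.subset_univ _)
  have hne : ∀ i, φ i ≠ 0 := by
    intro i hi
    have h1 : LinearIndepOn (ZMod 2) φ (({i} : Finset (Fin 7)) : Set (Fin 7)) := by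
      rw [← h]
      exact P_single i
    have h2 := h1.ne_zero (i := i) (by simp)
    exact h2 hi
  have hne2 : ∀ i j, i ≠ j → φ i ≠ φ j := by
    intro i j hij he
    have h1 : LinearIndepOn (ZMod 2) φ (({i, j} : Finset (Fin 7)) : Set (Fin 7)) := by
      rw [← h]
      exact P_pair i j
    have h2 := h1.injOn (x₁ := i) (x₂ := j) (by simp) (by simp) he
    exact hij h2
  have key : ∀ k : Fin 7, (k = 3 ∨ k = 6) → φ k = φ 0 + φ 1 := by
    intro k hk
    have h1 : LinearIndepOn (ZMod 2) φ (({0, 1} : Finset (Fin 7)) : Set (Fin 7)) := by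
      rw [← h]
      exact P_pair 0 1
    have h2 : ¬ LinearIndepOn (ZMod 2) φ (({k, 0, 1} : Finset (Fin 7)) : Set (Fin 7)) := by
      rw [← h]
      rcases hk with rfl | rfl
      · exact not_P_3
      · exact not_P_6
    have hk01 : k ∉ (({0, 1} : Finset (Fin 7)) : Set (Fin 7)) := by
      rcases hk with rfl | rfl <;> decide
    have h3 : φ k ∈ span (ZMod 2) (φ '' (({0, 1} : Finset (Fin 7)) : Set (Fin 7))) := by
      by_contra hcon
      apply h2
      have := (linearIndepOn_insert hk01).mpr ⟨h1, hcon⟩
      simpa using this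
    rw [Finset.coe_pair, Set.image_pair, mem_span_pair] at h3
    obtain ⟨a, b, hab⟩ := h3
    have hk0 : k ≠ 0 := by rcases hk with rfl | rfl <;> decide
    have hk1 : k ≠ 1 := by rcases hk with rfl | rfl <;> decide
    have ha : a = 0 ∨ a = 1 := zmod2 a
    have hb : b = 0 ∨ b = 1 := zmod2 b
    rcases ha with rfl | rfl <;> rcases hb with rfl | rfl
    · simp only [zero_smul, add_zero] at hab
      exact absurd hab.symm (hne k)
    · simp only [zero_smul, one_smul, zero_add] at hab
      exact absurd hab.symm (hne2 k 1 hk1)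
    · simp only [zero_smul, one_smul, add_zero] at hab
      exact absurd hab.symm (hne2 k 0 hk0)
    · simp only [one_smul] at hab
      exact hab.symm
  exact hne2 3 6 (by decide) ((key 3 (Or.inl rfl)).trans (key 6 (Or.inr rfl)).symm)

theorem N7_not_entropic {v : ℕ} (hv : v % 4 = 2) : ¬ IsEntropic N7 v := by
  classical
  rintro ⟨p, hp⟩
  have H : ∀ (A B : Finset (Fin 7)), B ⊆ A → P B → (∀ e ∈ A, e ∉ B → ¬ P (insert e B)) →
      entropy (p.map fun x (i : (A : Set (Fin 7))) => x i) =
        ENNReal.ofReal (Real.log v * (B.card : ℝ)) := by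
    intro A B hBA hB h
    rw [hp _ (by rw [N7_E]; exact Set.subset_univ _), N7_eRk A B hBA hB h]
    rfl
  refine no_N7 hv p ?_ ?_ ?_ ?_
  · intro i
    have h1 := H {i} {i} (by simp) (P_single i) (fun e h1 h2 => absurd h1 h2)
    have h2 : (p.map fun x => x i) = (p.map fun x (a : (({i} : Finset (Fin 7)) : Set (Fin 7))) =>
        x a).map (fun h => h ⟨i, by simp⟩) := by
      rw [PMF.map_comp]
      rfl
    rw [h2, entropy_map_injective, h1]
    · simp
    · intro f g hfg
      ext ⟨a, ha⟩
      simp only [Finset.coe_singleton, Set.mem_singleton_iff] at ha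
      subst ha
      exact hfg
  · intro i j hij
    have h1 := H {i, j} {i, j} (by simp) (P_pair i j) (fun e h1 h2 => absurd h1 h2)
    have h2 : (p.map fun x => (x i, x j)) =
        (p.map fun x (a : (({i, j} : Finset (Fin 7)) : Set (Fin 7))) => x a).map
          (fun h => (h ⟨i, by simp⟩, h ⟨j, by simp⟩)) := by
      rw [PMF.map_comp]
      rfl
    rw [h2, entropy_map_injective, h1, Finset.card_pair hij]
    · simp
    · intro f g hfg
      simp only [Prod.mk.injEq] at hfg
      ext ⟨a, ha⟩
      simp only [Finset.coe_insert, Finset.coe_singleton, Set.mem_insert_iff,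
        Set.mem_singleton_iff] at ha
      rcases ha with rfl | rfl
      · exact hfg.1
      · exact hfg.2
  · intro i j k hijk
    have h1 := H {i, j, k} {i, j} (by intro x; simp; tauto) (P_pair i j)
      (line_insert i j k hijk)
    have h2 : (p.map fun x => ((x i, x j), x k)) =
        (p.map fun x (a : (({i, j, k} : Finset (Fin 7)) : Set (Fin 7))) => x a).map
          (fun h => ((h ⟨i, by simp⟩, h ⟨j, by simp⟩), h ⟨k, by simp⟩)) := by
      rw [PMF.map_comp]
      rfl
    rw [h2, entropy_map_injective, h1, Finset.card_pair hijk.1]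
    · simp
    · intro f g hfg
      simp only [Prod.mk.injEq] at hfg
      ext ⟨a, ha⟩
      simp only [Finset.coe_insert, Finset.coe_singleton, Set.mem_insert_iff,
        Set.mem_singleton_iff] at ha
      rcases ha with rfl | rfl | rfl
      · exact hfg.1.1
      · exact hfg.1.2
      · exact hfg.2
  · have h1 := H {0, 1, 2} {0, 1, 2} (by simp) P_base (fun e h1 h2 => absurd h1 h2)
    have h2 : (p.map fun x => ((x 0, x 1), x 2)) =
        (p.map fun x (a : (({0, 1, 2} : Finset (Fin 7)) : Set (Fin 7))) => x a).map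
          (fun h => ((h ⟨0, by simp⟩, h ⟨1, by simp⟩), h ⟨2, by simp⟩)) := by
      rw [PMF.map_comp]
      rfl
    rw [h2, entropy_map_injective, h1]
    · simp
    · intro f g hfg
      simp only [Prod.mk.injEq] at hfg
      ext ⟨a, ha⟩
      simp only [Finset.coe_insert, Finset.coe_singleton, Set.mem_insert_iff,
        Set.mem_singleton_iff] at ha
      rcases ha with rfl | rfl | rfl
      · exact hfg.1.1
      · exact hfg.1.2
      · exact hfg.2

theorem N7_not_inClass : ¬ InClass N7 := by
  rintro (h | h)
  · exact N7_not_binary (h (ZMod 2))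
  · have h10 : (10 : ℕ) ∈ pChar N7 := by
      rw [h]
      simp
    exact N7_not_entropic (by norm_num) h10.2

end Pool.Agent.H17.PChar
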