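import Mathlib
import Pool.Agent.H17.PChar.Main

/-!
Minors of `N7` and the final theorem.
-/

namespace Pool.Agent.H17.PChar

open Set Module Submodule

theorem fact25 : ∀ X : Finset (Fin 7), X.card = 2 → ∀ J ⊆ X,
    (∃ I : Finset (Fin 7), Disjoint I X ∧ I.card = 2 ∧ ¬ P (I ∪ J)) ∨
    (∃ I : Finset (Fin 7), Disjoint I X ∧ I.card = 3 ∧ P (I ∪ J)) := by
  decide +kernel

theorem fact35 : ∀ X : Finset (Fin 7), X.card = 2 → ∀ J ⊆ X,
    (∃ I : Finset (Fin 7), Disjoint I X ∧ I.card = 3 ∧ ¬ P (I ∪ J)) := by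
  decide +kernel

theorem ins_base : ∀ e : Fin 7, e ∉ ({0, 1, 2} : Finset (Fin 7)) → ¬ P (insert e {0, 1, 2}) := by
  decide +kernel

/-- description of the minors of `N7` -/
theorem minor_desc {K : Matroid (Fin 7)} (h : K ≤m N7) :
    ∃ X J : Finset (Fin 7), J ⊆ X ∧ K.E = ((Xᶜ : Finset (Fin 7)) : Set (Fin 7)) ∧
      (∀ I : Finset (Fin 7), Disjoint I X → (K.Indep (I : Set (Fin 7)) ↔ P (I ∪ J))) ∧
      (X = ∅ → K = N7) := by
  classical
  obtain ⟨C, D, hC, hD, hCD, rfl⟩ := h.exists_eq_contract_delete_disjoint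
  obtain ⟨J, hJ⟩ := N7.exists_isBasis C
  have hCc : ((C.toFinite.toFinset : Finset (Fin 7)) : Set (Fin 7)) = C :=
    Set.Finite.coe_toFinset _
  have hDc : ((D.toFinite.toFinset : Finset (Fin 7)) : Set (Fin 7)) = D :=
    Set.Finite.coe_toFinset _
  have hJc : ((J.toFinite.toFinset : Finset (Fin 7)) : Set (Fin 7)) = J :=
    Set.Finite.coe_toFinset _
  refine ⟨C.toFinite.toFinset ∪ D.toFinite.toFinset, J.toFinite.toFinset, ?_, ?_, ?_, ?_⟩
  · intro x hx
    rw [Finset.mem_union]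
    left
    rw [← Finset.mem_coe, hCc]
    rw [← Finset.mem_coe, hJc] at hx
    exact hJ.subset hx
  · rw [Matroid.delete_ground, Matroid.contract_ground, N7_E, Finset.coe_compl,
      Finset.coe_union, hCc, hDc]
    ext x
    simp
  · intro I hI
    have hIX : Disjoint (I : Set (Fin 7)) (C ∪ D) := by
      rw [← hCc, ← hDc, ← Finset.coe_union, Finset.disjoint_coe]
      exact hI
    have hCI : Disjoint C (I : Set (Fin 7)) := (hIX.mono_right subset_union_left).symm
    have hDI : Disjoint (I : Set (Fin 7)) D := hIX.mono_right subset_union_right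
    rw [Matroid.delete_indep_iff, hJ.contract_indep_iff, and_iff_left hCI, and_iff_left hDI]
    rw [← N7_indep, Finset.coe_union, hJc]
  · intro hX
    rw [Finset.union_eq_empty] at hX
    have h1 : C = ∅ := by rw [← hCc, hX.1]; simp
    have h2 : D = ∅ := by rw [← hDc, hX.2]; simp
    rw [h1, h2]
    simp

theorem not_U25 {K : Matroid (Fin 7)} (h : K ≤m N7) : ¬ IsUniform 2 5 K := by
  classical
  rintro ⟨hcard, hind⟩
  obtain ⟨X, J, hJX, hE, hI, -⟩ := minor_desc h
  have hX : X.card = 2 := by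
    rw [hE, Set.encard_coe_eq_coe_finsetCard, Finset.card_compl, Fintype.card_fin] at hcard
    have h1 : 7 - X.card = 5 := by exact_mod_cast hcard
    omega
  have sub : ∀ I : Finset (Fin 7), Disjoint I X → (I : Set (Fin 7)) ⊆ K.E := by
    intro I hIX
    rw [hE, Finset.coe_subset]
    intro x hx
    rw [Finset.mem_compl]
    exact Finset.disjoint_left.mp hIX hx
  rcases fact25 X hX J hJX with ⟨I, hIX, hI2, hIP⟩ | ⟨I, hIX, hI3, hIP⟩
  · apply hIP
    rw [← hI I hIX, hind _ (sub I hIX), Set.encard_coe_eq_coe_finsetCard, hI2]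
  · rw [← hI I hIX, hind _ (sub I hIX), Set.encard_coe_eq_coe_finsetCard, hI3] at hIP
    have h1 : (3 : ℕ) ≤ 2 := by exact_mod_cast hIP
    omega

theorem not_U35 {K : Matroid (Fin 7)} (h : K ≤m N7) : ¬ IsUniform 3 5 K := by
  classical
  rintro ⟨hcard, hind⟩
  obtain ⟨X, J, hJX, hE, hI, -⟩ := minor_desc h
  have hX : X.card = 2 := by
    rw [hE, Set.encard_coe_eq_coe_finsetCard, Finset.card_compl, Fintype.card_fin] at hcard
    have h1 : 7 - X.card = 5 := by exact_mod_cast hcard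
    omega
  have sub : ∀ I : Finset (Fin 7), Disjoint I X → (I : Set (Fin 7)) ⊆ K.E := by
    intro I hIX
    rw [hE, Finset.coe_subset]
    intro x hx
    rw [Finset.mem_compl]
    exact Finset.disjoint_left.mp hIX hx
  obtain ⟨I, hIX, hI2, hIP⟩ := fact35 X hX J hJX
  apply hIP
  rw [← hI I hIX, hind _ (sub I hIX), Set.encard_coe_eq_coe_finsetCard, hI2]

theorem card_fano : ({x | x ≠ 0} : Set (Fin 3 → ZMod 2)).encard = 7 := by
  have : ({x | x ≠ 0} : Set (Fin 3 → ZMod 2)) =
      ((Finset.univ.filter fun x : Fin 3 → ZMod 2 => x ≠ 0 : Finset _) : Set _) := by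
    ext x
    simp
  rw [this, Set.encard_coe_eq_coe_finsetCard]
  have h : (Finset.univ.filter fun x : Fin 3 → ZMod 2 => x ≠ 0).card = 7 := by decide
  rw [h]
  rfl

theorem fano_card {α : Type*} {K : Matroid α} (h : IsFano K) : K.E.encard = 7 := by
  obtain ⟨φ, hφ, -⟩ := h
  rw [← card_fano, ← hφ.image_eq]
  exact (hφ.injOn.encard_image).symm

theorem eq_N7_of_card {K : Matroid (Fin 7)} (h : K ≤m N7) (hc : K.E.encard = 7) : K = N7 := by
  classical
  obtain ⟨X, J, hJX, hE, hI, hX⟩ := minor_desc h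
  apply hX
  rw [hE, Set.encard_coe_eq_coe_finsetCard, Finset.card_compl, Fintype.card_fin] at hc
  have h1 : 7 - X.card = 7 := by exact_mod_cast hc
  rw [← Finset.card_eq_zero]
  have h2 : X.card ≤ 7 := by
    have := Finset.card_le_univ X
    simpa using this
  omega

theorem not_fano {K : Matroid (Fin 7)} (h : K ≤m N7) : ¬ IsFano K := by
  intro hF
  have hK := eq_N7_of_card h (fano_card hF)
  subst hK
  obtain ⟨φ, -, hφ⟩ := hF
  exact N7_not_binary ⟨Fin 3 → ZMod 2, inferInstance, inferInstance, φ, hφ⟩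

theorem not_fano_dual {K : Matroid (Fin 7)} (h : K ≤m N7) : ¬ IsFano K✶ := by
  intro hF
  have hK := eq_N7_of_card h (by rw [← fano_card hF, Matroid.dual_ground])
  subst hK
  obtain ⟨φ, -, hφ⟩ := hF
  -- `{0,1,2}` is a base of `N7`
  have hB : N7.IsBase (({0, 1, 2} : Finset (Fin 7)) : Set (Fin 7)) := by
    rw [← Matroid.isBasis_ground_iff]
    apply ((N7_indep _).mpr P_base).isBasis_of_forall_insert (by rw [N7_E]; exact subset_univ _)
    intro e he
    rw [Matroid.dep_iff]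
    constructor
    · rw [← Finset.coe_insert, N7_indep]
      have he' : e ∉ ({0, 1, 2} : Finset (Fin 7)) := by
        have := he.2
        simpa using this
      exact ins_base e he'
    · rw [N7_E]
      exact subset_univ _
  have h1 := hB.compl_isBase_dual.indep
  rw [hφ _ (by rw [Matroid.dual_ground]; exact sdiff_subset)] at h1
  have h2 := h1.encard_le_toENat_rank
  have h3 : N7.E \ (({0, 1, 2} : Finset (Fin 7)) : Set (Fin 7)) =
      (({3, 4, 5, 6} : Finset (Fin 7)) : Set (Fin 7)) := by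
    rw [N7_E]
    ext x
    simp only [Set.mem_sdiff, Set.mem_univ, true_and, Finset.mem_coe]
    revert x
    decide
  rw [h3, Set.encard_coe_eq_coe_finsetCard] at h2
  simp only [rank_fin_fun] at h2
  have h4 : (({3, 4, 5, 6} : Finset (Fin 7)).card) = 4 := by decide
  rw [h4] at h2
  have h5 : ((4 : ℕ) : ℕ∞) ≤ ((3 : ℕ) : ℕ∞) := by simpa using h2
  have h6 : 4 ≤ 3 := by exact_mod_cast h5
  omega

theorem main : ∃ K : Matroid (Fin 7), IsExcludedMinor K ∧
    (∀ (F : Type) [Field F], (∃ t : F, t ≠ 0 ∧ t ≠ 1) → Representable F K) ∧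
    ¬ IsUniform 2 5 K ∧ ¬ IsUniform 3 5 K ∧ ¬ IsFano K ∧ ¬ IsFano K✶ := by
  classical
  let S : Set ℕ := {n | ∃ K : Matroid (Fin 7), K ≤m N7 ∧ ¬ InClass K ∧ K.E.ncard = n}
  have hS : S.Nonempty := ⟨_, N7, Matroid.IsMinor.refl, N7_not_inClass, rfl⟩
  obtain ⟨K, hK, hKc, hKn⟩ := Nat.sInf_mem hS
  refine ⟨K, ⟨inferInstance, hKc, ?_⟩, ?_, not_U25 hK, not_U35 hK, not_fano hK, not_fano_dual hK⟩
  · intro N hN
    by_contra hNc
    have h1 : N.E.ncard ∈ S := ⟨N, hN.isMinor.trans hK, hNc, rfl⟩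
    have h2 := Nat.sInf_le h1
    rw [← hKn] at h2
    have h3 := Set.ncard_lt_ncard hN.ssubset (Set.toFinite _)
    omega
  · intro F _ hF
    exact (N7_representable F hF).minor hK

end Pool.Agent.H17.PChar
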